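import Mathlib

/-!
# Weak octahedrality can be tested on finitely many points of the sphere

Given `f` of norm one, choose a unit vector `z` with `f z` near `1`. A point `x` of the ball is
shifted to the unit sphere by adding `± s z` with `0 ≤ s ≤ 2`; this changes the two sides of the
inequality by nearly the same amount. Points of norm greater than one are treated by convexity, and
points of large norm trivially. A finite net of a ball of `E` gives the result.
-/

set_option autoImplicit false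

namespace Pool.Agent.Results.MP_140fc6_an.FinitePoints

open Set

/-- The space is weakly octahedral. -/
def WOH (X : Type*) [NormedAddCommGroup X] [NormedSpace ℝ X] : Prop :=
  ∀ (E : Submodule ℝ X), FiniteDimensional ℝ E → ∀ f : StrongDual ℝ X, ‖f‖ ≤ 1 →
    ∀ ε : ℝ, 0 < ε → ∃ y : X, ‖y‖ = 1 ∧ ∀ x ∈ E, (1 - ε) * (|f x| + ‖y‖) ≤ ‖x + y‖

/-- Property (P). -/
def PropertyP (X : Type*) [NormedAddCommGroup X] [NormedSpace ℝ X] : Prop :=
  ∀ ε : ℝ, 0 < ε → ∀ (n : ℕ) (x : Fin n → X), (∀ i, ‖x i‖ = 1) → ∀ f : StrongDual ℝ X, ‖f‖ ≤ 1 →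
    ∃ y : X, ‖y‖ = 1 ∧ ∀ i, (1 - ε) * (|f (x i)| + 1) ≤ ‖x i + y‖

variable {X : Type*} [NormedAddCommGroup X] [NormedSpace ℝ X]

theorem PropertyP.finset (h : PropertyP X) {ε : ℝ} (hε : 0 < ε) (s : Finset X)
    (hs : ∀ x ∈ s, ‖x‖ = 1) {f : StrongDual ℝ X} (hf : ‖f‖ ≤ 1) :
    ∃ y : X, ‖y‖ = 1 ∧ ∀ x ∈ s, (1 - ε) * (|f x| + 1) ≤ ‖x + y‖ := by
  obtain ⟨y, hy, hy2⟩ := h ε hε s.card (fun i => (s.equivFin.symm i : X))
    (fun i => hs _ (s.equivFin.symm i).2) f hf
  refine ⟨y, hy, fun x hx => ?_⟩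
  have := hy2 (s.equivFin ⟨x, hx⟩)
  simpa using this

/-- The inequality at finitely many arbitrary points. -/
theorem finite_points (h : PropertyP X) {f : StrongDual ℝ X} (hf : ‖f‖ = 1) (s : Finset X)
    {κ : ℝ} (hκ : 0 < κ) :
    ∃ y : X, ‖y‖ = 1 ∧ ∀ x ∈ s, |f x| + 1 - κ ≤ ‖x + y‖ := by
  classical
  -- a bound of the norms
  obtain ⟨R, hR1, hR⟩ : ∃ R : ℝ, 1 ≤ R ∧ ∀ x ∈ s, ‖x‖ ≤ R := by
    refine ⟨1 + ∑ x ∈ s, ‖x‖, ?_, fun x hx => ?_⟩
    · have : 0 ≤ ∑ x ∈ s, ‖x‖ := Finset.sum_nonneg fun _ _ => norm_nonneg _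
      linarith
    · have : ‖x‖ ≤ ∑ x ∈ s, ‖x‖ :=
        Finset.single_le_sum (f := fun x : X => ‖x‖) (fun _ _ => norm_nonneg _) hx
      linarith
  set δ : ℝ := min (1 / 2) (κ / (16 * R)) with hδ
  have hR0 : 0 < R := by linarith
  have hδ0 : 0 < δ := by positivity
  have hδ1 : δ ≤ 1 / 2 := min_le_left _ _
  have hδR : δ * R ≤ κ / 16 := by
    have h1 : δ ≤ κ / (16 * R) := min_le_right _ _
    calc δ * R ≤ κ / (16 * R) * R := by gcongr
      _ = κ / 16 := by field_simp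
  have hδκ : δ ≤ κ / 16 := by nlinarith
  -- a vector on which `f` is almost one
  obtain ⟨z, hz1, hzf⟩ : ∃ z : X, ‖z‖ ≤ 1 ∧ 1 - δ ≤ f z := by
    obtain ⟨z, hz, hz2⟩ := f.exists_lt_apply_of_lt_opNorm (r := 1 - δ) (by rw [hf]; linarith)
    rw [Real.norm_eq_abs] at hz2
    rcases abs_cases (f z) with h1 | h1
    · exact ⟨z, hz.le, by rw [← h1.1]; exact hz2.le⟩
    · refine ⟨-z, by rw [norm_neg]; exact hz.le, ?_⟩
      rw [map_neg, ← h1.1]; exact hz2.le
  have hfle : ∀ x, |f x| ≤ ‖x‖ := fun x => by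
    have := f.le_opNorm x
    rwa [hf, one_mul] at this
  have hz0 : 1 / 2 ≤ ‖z‖ := by
    have := (le_abs_self _).trans (hfle z)
    linarith
  -- the auxiliary unit vectors
  have haux : ∀ x : X, ∃ u : X, ‖x‖ ≤ R → ‖u‖ = 1 ∧ ∀ y : X, ‖y‖ = 1 →
      (1 - δ) * (|f u| + 1) ≤ ‖u + y‖ → |f x| + 1 - κ ≤ ‖x + y‖ := by
    intro x
    by_cases hx1 : ‖x‖ ≤ 1
    · -- shift to the sphere
      obtain ⟨σ, hσ, hσx⟩ : ∃ σ : ℝ, |σ| = 1 ∧ σ * f x = |f x| := by
        rcases abs_cases (f x) with h1 | h1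
        · exact ⟨1, by norm_num, by rw [h1.1, one_mul]⟩
        · exact ⟨-1, by norm_num, by rw [h1.1]; ring⟩
      have hcont : ContinuousOn (fun t : ℝ => ‖x + (t * σ) • z‖) (Icc 0 4) := by fun_prop
      obtain ⟨t, ht, ht1⟩ : ∃ t ∈ Icc (0 : ℝ) 4, ‖x + (t * σ) • z‖ = 1 := by
        have h1 := intermediate_value_Icc (by norm_num : (0 : ℝ) ≤ 4) hcont
        refine h1 ⟨?_, ?_⟩
        · simpa using hx1
        · have h2 : ‖(4 * σ) • z‖ = 4 * ‖z‖ := by
            rw [norm_smul, Real.norm_eq_abs, abs_mul, hσ]; norm_num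
          have h3 := norm_sub_le (x + (4 * σ) • z) x
          rw [add_sub_cancel_left, h2] at h3
          linarith
      refine ⟨x + (t * σ) • z, fun _ => ⟨ht1, fun y hy hyu => ?_⟩⟩
      have h2 : |f (x + (t * σ) • z)| ≥ |f x| + t * (1 - δ) := by
        have h3 : f (x + (t * σ) • z) = f x + t * σ * f z := by
          rw [map_add, map_smul, smul_eq_mul]
        have h4 : σ * f (x + (t * σ) • z) = |f x| + t * f z := by
          have h5 : σ * σ = 1 := by
            have := congrArg (fun r => r * r) hσ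
            simp only [abs_mul_abs_self, mul_one] at this
            exact this
          rw [h3, mul_add, hσx]
          linear_combination t * f z * h5
        have h6 : |σ * f (x + (t * σ) • z)| = |f (x + (t * σ) • z)| := by
          rw [abs_mul, hσ, one_mul]
        rw [← h6, h4]
        refine le_trans ?_ (le_abs_self _)
        have := mul_le_mul_of_nonneg_left hzf ht.1
        linarith
      have h3 : ‖x + (t * σ) • z + y‖ ≤ ‖x + y‖ + t := by
        have h4 : x + (t * σ) • z + y = (x + y) + (t * σ) • z := by abel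
        rw [h4]
        refine (norm_add_le _ _).trans ?_
        rw [norm_smul, Real.norm_eq_abs, abs_mul, hσ, mul_one, abs_of_nonneg ht.1]
        have := mul_le_mul_of_nonneg_left hz1 ht.1
        linarith
      have h4 : |f x| ≤ 1 := (hfle x).trans hx1
      have h5 : (1 - δ) * (|f x| + t * (1 - δ) + 1) ≤ (1 - δ) * (|f (x + (t * σ) • z)| + 1) :=
        mul_le_mul_of_nonneg_left (by linarith) (by linarith)
      have ht4 : t * δ ≤ 4 * δ := mul_le_mul_of_nonneg_right ht.2 hδ0.le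
      have ht5 : 0 ≤ t * δ ^ 2 := mul_nonneg ht.1 (sq_nonneg _)
      have h6 : 0 ≤ δ * (1 - |f x|) := mul_nonneg hδ0.le (by linarith)
      have h7 : (1 - δ) * (|f x| + t * (1 - δ) + 1) =
          |f x| + 1 + t - δ * |f x| - δ - 2 * (t * δ) + t * δ ^ 2 := by ring
      have h8 : δ * (1 - |f x|) = δ - δ * |f x| := by ring
      linarith
    · push Not at hx1
      have hx0 : ‖x‖ ≠ 0 := by linarith
      refine ⟨‖x‖⁻¹ • x, fun hxR => ⟨by rw [norm_smul, norm_inv, norm_norm,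
        inv_mul_cancel₀ hx0], fun y hy hyu => ?_⟩⟩
      have h1 : f (‖x‖⁻¹ • x) = ‖x‖⁻¹ * f x := by rw [map_smul, smul_eq_mul]
      rw [h1, abs_mul, abs_inv, abs_norm] at hyu
      have h2 : ‖x‖ * ‖‖x‖⁻¹ • x + y‖ ≤ ‖x + y‖ + (‖x‖ - 1) := by
        have h3 : ‖x‖ • (‖x‖⁻¹ • x + y) = (x + y) + (‖x‖ - 1) • y := by
          rw [smul_add, smul_smul, mul_inv_cancel₀ hx0, one_smul, sub_smul, one_smul]
          abel
        have h4 : ‖x‖ * ‖‖x‖⁻¹ • x + y‖ = ‖‖x‖ • (‖x‖⁻¹ • x + y)‖ := by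
          rw [norm_smul, norm_norm]
        rw [h4, h3]
        refine (norm_add_le _ _).trans ?_
        rw [norm_smul, hy, mul_one, Real.norm_of_nonneg (by linarith)]
      have h3 : ‖x‖ * ((1 - δ) * (‖x‖⁻¹ * |f x| + 1)) ≤ ‖x‖ * ‖‖x‖⁻¹ • x + y‖ :=
        mul_le_mul_of_nonneg_left hyu (norm_nonneg _)
      have h4 : ‖x‖ * ((1 - δ) * (‖x‖⁻¹ * |f x| + 1)) = (1 - δ) * (|f x| + ‖x‖) := by
        field_simp
      rw [h4] at h3
      have h5 := hfle x
      have h6 : δ * |f x| ≤ δ * R := mul_le_mul_of_nonneg_left (h5.trans hxR) hδ0.le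
      have h7 : δ * ‖x‖ ≤ δ * R := mul_le_mul_of_nonneg_left hxR hδ0.le
      linarith
  choose u hu using haux
  obtain ⟨y, hy, hy2⟩ := h.finset hδ0 (s.image u) (fun v hv => by
    obtain ⟨x, hx, rfl⟩ := Finset.mem_image.mp hv
    exact (hu x (hR x hx)).1) hf.le
  exact ⟨y, hy, fun x hx => (hu x (hR x hx)).2 y hy (hy2 _ (Finset.mem_image_of_mem _ hx))⟩

theorem PropertyP.woh (h : PropertyP X) : WOH X := by
  classical
  intro E hE f hf ε hε
  -- the space is not trivial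
  obtain ⟨y₀, hy₀, -⟩ := h 1 one_pos 0 (fun i => i.elim0) (fun i => i.elim0) 0 (by simp)
  -- a functional of norm one dominating `f`
  obtain ⟨g, hg, hfg⟩ : ∃ g : StrongDual ℝ X, ‖g‖ = 1 ∧ ∀ x, |f x| ≤ |g x| := by
    by_cases hf0 : f = 0
    · obtain ⟨g, hg, -⟩ := exists_dual_vector ℝ y₀ (by rw [hy₀]; exact one_ne_zero)
      exact ⟨g, hg, fun x => by rw [hf0]; simp⟩
    · have hf1 : 0 < ‖f‖ := norm_pos_iff.mpr hf0
      refine ⟨‖f‖⁻¹ • f, ?_, fun x => ?_⟩
      · rw [norm_smul, norm_inv, norm_norm, inv_mul_cancel₀ hf1.ne']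
      · have h1 : (‖f‖⁻¹ • f) x = ‖f‖⁻¹ * f x := rfl
        rw [h1, abs_mul, abs_inv, abs_norm]
        have h2 : 1 ≤ ‖f‖⁻¹ := (one_le_inv₀ hf1).mpr hf
        have := mul_le_mul_of_nonneg_right h2 (abs_nonneg (f x))
        linarith
  -- a net of a ball of `E`
  set R : ℝ := 2 / ε with hRdef
  have hR0 : 0 < R := by positivity
  obtain ⟨t, ht, hcov⟩ := Metric.totallyBounded_iff.mp
    (isCompact_closedBall (0 : E) R).totallyBounded (ε / 4) (by positivity)
  obtain ⟨y, hy, hy2⟩ := finite_points h hg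
    (ht.toFinset.image (fun e : E => (e : X))) (κ := ε / 4) (by positivity)
  refine ⟨y, hy, fun x hx => ?_⟩
  have hgx : |g x| ≤ ‖x‖ := by
    have := g.le_opNorm x
    rwa [hg, one_mul] at this
  have habs := hfg x
  have hfx0 := abs_nonneg (f x)
  by_cases hxR : ‖x‖ ≤ R
  · have hmem : (⟨x, hx⟩ : E) ∈ ⋃ y ∈ t, Metric.ball y (ε / 4) :=
      hcov (by rw [mem_closedBall_zero_iff]; exact hxR)
    simp only [mem_iUnion, Metric.mem_ball, exists_prop] at hmem
    obtain ⟨e, he, hxe⟩ := hmem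
    have h1 := hy2 (e : X) (Finset.mem_image.mpr ⟨e, ht.mem_toFinset.mpr he, rfl⟩)
    have h2 : ‖x - e‖ < ε / 4 := by
      rw [dist_eq_norm] at hxe
      exact hxe
    have h3 : |g (x - e)| ≤ ‖x - e‖ := by
      have := g.le_opNorm (x - e)
      rwa [hg, one_mul] at this
    have h4 : |g x| - |g (e : X)| ≤ |g (x - e)| := by
      rw [map_sub]; exact abs_sub_abs_le_abs_sub _ _
    have h5 : ‖(e : X) + y‖ ≤ ‖x + y‖ + ‖x - e‖ := by
      have h6 : (e : X) + y = (x + y) - (x - e) := by abel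
      rw [h6]
      exact norm_sub_le _ _
    rw [hy]
    have h7 : 0 ≤ ε * |f x| := by positivity
    nlinarith
  · push Not at hxR
    have h1 : ‖x‖ - 1 ≤ ‖x + y‖ := by
      have := norm_sub_le (x + y) y
      rw [add_sub_cancel_right, hy] at this
      linarith
    rw [hy]
    by_cases hε1 : ε ≤ 1
    · have h2 : (1 - ε) * (|f x| + 1) ≤ (1 - ε) * (‖x‖ + 1) :=
        mul_le_mul_of_nonneg_left (by linarith) (by linarith)
      have h3 : 2 < ε * ‖x‖ := by
        have := mul_lt_mul_of_pos_left hxR hε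
        have h4 : ε * R = 2 := by rw [hRdef]; field_simp
        linarith
      nlinarith
    · push Not at hε1
      have : (1 - ε) * (|f x| + 1) ≤ 0 :=
        mul_nonpos_of_nonpos_of_nonneg (by linarith) (by positivity)
      exact this.trans (norm_nonneg _)

theorem WOH.propertyP (h : WOH X) : PropertyP X := by
  intro ε hε n x hx f hf
  obtain ⟨y, hy, hy2⟩ := h (Submodule.span ℝ (range x))
    (FiniteDimensional.span_of_finite ℝ (finite_range x)) f hf ε hε
  refine ⟨y, hy, fun i => ?_⟩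
  have := hy2 (x i) (Submodule.subset_span (mem_range_self i))
  rwa [hy] at this

/-- **Result.** A real Banach space is weakly octahedral if and only if it has property (P). -/
theorem result (X : Type*) [NormedAddCommGroup X] [NormedSpace ℝ X] [CompleteSpace X] :
    WOH X ↔ PropertyP X :=
  ⟨fun h => h.propertyP, fun h => h.woh⟩

end Pool.Agent.Results.MP_140fc6_an.FinitePoints
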